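import Pool.Agent.P.MP_485d6e_al.Inv

set_option autoImplicit false

namespace Pool.Agent.Results.MP_485d6e_al.Inverse

open Pool.Agent.P.MP_485d6e_al

/-- For a finite inverse semigroup `S` (regular, with commuting idempotents), the power semiring
`P(S)` is finitely based if and only if `a³ = a` holds in `S` and in every local monoid `eSe`
the product of two elements is one of them or `e`. -/
theorem result (S : Type) [Semigroup S] [Finite S] [Nonempty S]
    (hr : ∀ a : S, ∃ b : S, a * b * a = a)
    (hc : ∀ e f : S, e * e = e → f * f = f → e * f = f * e) :
    FinitelyBased (Pow.add (S := S)) Pow.mul ↔ (∀ a : S, a * a * a = a) ∧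
      ∀ e a b : S, e * e = e → e * a = a → a * e = a → e * b = b → b * e = b →
        a * b = a ∨ a * b = b ∨ a * b = e :=
  inv_iff hr hc

end Pool.Agent.Results.MP_485d6e_al.Inverse
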