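import Pool.Agent.P.MP_485d6e_al.MonFB
import Pool.Agent.P.MP_485d6e_al.ExactSets

set_option autoImplicit false

namespace Pool.Agent.Results.MP_485d6e_al.Monoids

open Pool.Agent.P.MP_485d6e_al

/-- For a finite monoid `M`, the power semiring `P(M)` is finitely based if and only if the
product of any two elements of `M` is one of them or the identity. -/
theorem result (M : Type) [Monoid M] [Finite M] :
    FinitelyBased (Pow.add (S := M)) Pow.mul ↔ ∀ a b : M, a * b = a ∨ a * b = b ∨ a * b = 1 := by
  refine ⟨fun h => ?_, fun h => fb_of_good h⟩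
  by_contra hn
  push Not at hn
  obtain ⟨a, b, h1, h2, h3⟩ := hn
  exact not_fb_of_exact (exact_of_local 1 a b (by simp) (by simp) (by simp) (by simp) (by simp)
    h1 h2 h3) h

end Pool.Agent.Results.MP_485d6e_al.Monoids
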