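import Pool.Agent.P.MP_485d6e_al.Nil

set_option autoImplicit false

namespace Pool.Agent.Results.MP_485d6e_al.NilpotentDuality

open Pool.Agent.P.MP_485d6e_al

/-- For a semigroup with `xyz = 0` and `x² = 0`, the power semiring is finitely based if
and only if the digraph of pairs with nonzero product has finite duality. -/
theorem result (S : Type) [Semigroup S] (z : S)
    (h3 : ∀ a b c : S, a * b * c = z) (h2 : ∀ a : S, a * a = z) :
    FinitelyBased (Pow.add (S := S)) Pow.mul ↔ FiniteDuality fun a b : S => a * b ≠ z := by
  refine ⟨fun h => ?_, nil_fb h3 h2⟩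
  by_contra hn
  exact nil_not_fb h3 h2 hn h

end Pool.Agent.Results.MP_485d6e_al.NilpotentDuality
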