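import Pool.Agent.P.MP_485d6e_al.U.Final

set_option autoImplicit false

namespace Pool.Agent.Results.MP_485d6e_al.Undecidable

open Pool.Agent.P.MP_485d6e_al

/-- No algorithm decides, from the multiplication table of a finite nilpotent semigroup `S`,
whether the power semiring `P(S)` is finitely based. -/
theorem result : ¬ ∃ D : List (List ℕ) → Bool, Computable D ∧
    ∀ (n : ℕ) (mul : Fin n → Fin n → Fin n), (∀ a b c, mul (mul a b) c = mul a (mul b c)) →
      (∃ (c : ℕ) (z : Fin n), ∀ (a : Fin n) (l : List (Fin n)), l.length = c →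
        l.foldl mul a = z) →
      (D (List.ofFn fun a : Fin n => List.ofFn fun b : Fin n => (mul a b).val) = true ↔
        FinitelyBased (Pow.add (S := Fin n)) (@Pow.mul (Fin n) ⟨mul⟩)) :=
  U.undecidable

end Pool.Agent.Results.MP_485d6e_al.Undecidable
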